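import Pool.Agent.U540.HC.Stm

/-!
# Project HC: the assembly (crossing argument)
-/

namespace Pool.Agent.U540.HC

open FirstOrder FirstOrder.Language

theorem growth (a K : ℕ) : ∃ m : ℕ, 0 < m ∧ a ^ m * K < 2 ^ (2 ^ m) := by
  obtain ⟨b, hb⟩ : ∃ b : ℕ, a ≤ 2 ^ b := ⟨a, Nat.lt_two_pow_self.le⟩
  obtain ⟨c, hc⟩ : ∃ c : ℕ, K ≤ 2 ^ c := ⟨K, Nat.lt_two_pow_self.le⟩
  -- need `b * m + c < 2 ^ m`
  obtain ⟨m, hm, hmm⟩ : ∃ m : ℕ, 0 < m ∧ b * m + c < 2 ^ m := by
    refine ⟨2 * (b + c + 1), by omega, ?_⟩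
    have h1 : (b + c) < 2 ^ (b + c) := Nat.lt_two_pow_self
    have h2 : 2 ^ (2 * (b + c + 1)) = (2 * 2 ^ (b + c)) * (2 * 2 ^ (b + c)) := by
      rw [two_mul (b + c + 1), pow_add, pow_succ]; ring
    rw [h2]
    have h3 : (2 * (b + c + 1)) * (2 * (b + c + 1)) ≤ (2 * 2 ^ (b + c)) * (2 * 2 ^ (b + c)) :=
      Nat.mul_le_mul (by omega) (by omega)
    refine lt_of_lt_of_le ?_ h3
    nlinarith
  refine ⟨m, hm, ?_⟩
  calc a ^ m * K ≤ (2 ^ b) ^ m * 2 ^ c := Nat.mul_le_mul (Nat.pow_le_pow_left hb m) hc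
    _ = 2 ^ (b * m + c) := by rw [← pow_mul, ← pow_add]
    _ < 2 ^ (2 ^ m) := Nat.pow_lt_pow_right (by norm_num) hmm

/-- first components and presence -/
structure Good {B : Type} (l : Pos → Option Lab) (σ : Pos → Option Lab × Set (QB B)) : Prop where
  fst : ∀ p, (σ p).1 = l p
  out : ∀ p, l p = none → (σ p).2 = ∅

section

variable {L : FirstOrder.Language.{0, 0}} [L.IsRelational] {B : Type} [L.Structure B]
  (hnear : ∀ (c : Jn) (u : Sol c → B) o q, iota c u = Sum.inr (o, q) → |o.1| ≤ 1 ∧ |o.2| ≤ 1)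

theorem mem_car {l : Pos → Option Lab} {σ : Pos → Option Lab × Set (QB B)} (h : Good l σ)
    (SH : Set B) (e : B ⊕ (Pos × QB B))
    (he : Sum.elim (fun h => h ∈ SH) (fun x => (gadget L B hnear).sel (σ x.1) x.2) e) :
    Sum.elim (fun h => h ∈ (Set.univ : Set B))
      (fun x => (gadget L B hnear).sel (full l x.1) x.2) e := by
  rcases e with b | ⟨p, q⟩
  · trivial
  · change l p ≠ none
    intro h0
    have : q ∈ (σ p).2 := he
    rw [h.out p h0] at this
    exact this

/-- the structure of a good configuration is a substructure of the full structure -/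
def emb {l : Pos → Option Lab} {σ : Pos → Option Lab × Set (QB B)} (h : Good l σ)
    (SH : Set B) : (gadget L B hnear).Car σ SH ↪[L] (gadget L B hnear).Car (full l) Set.univ where
  toFun := fun e => ⟨e.1, mem_car hnear h SH e.1 e.2⟩
  inj' := by
    rintro ⟨e, he⟩ ⟨e', he'⟩ h'
    have h2 : e = e' := congrArg (fun z : (gadget L B hnear).Car (full l) Set.univ => z.1) h'
    exact Subtype.ext h2
  map_fun' := fun f => isEmptyElim f
  map_rel' := by
    intro n R x
    change (∃ (p : Pos) (y : _ → B ⊕ (Pos × QB B)), (∃ c, has (l p) c ∧ _) ∧ _) ↔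
      (∃ (p : Pos) (y : _ → B ⊕ (Pos × QB B)), (∃ c, has (σ p).1 c ∧ _) ∧ _)
    simp only [h.fst]
    rfl

theorem realize_of_her {l : Pos → Option Lab} {σ : Pos → Option Lab × Set (QB B)} (h : Good l σ)
    (SH : Set B) (φ : L.Sentence)
    (hφ : ∀ S : L.Substructure ((gadget L B hnear).Car (full l) Set.univ), Nonempty S →
      Sentence.Realize S φ) (hne : Nonempty ((gadget L B hnear).Car σ SH)) :
    Sentence.Realize ((gadget L B hnear).Car σ SH) φ := by
  have e := (emb (L := L) hnear h SH).equivRange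
  have h1 : Nonempty (emb (L := L) hnear h SH).toHom.range := hne.map e
  have h2 := hφ _ h1
  exact (StrongHomClass.realize_sentence e φ).mpr h2

theorem exists_conf {l : Pos → Option Lab} (φ : L.Sentence)
    (S : L.Substructure ((gadget L B hnear).Car (full l) Set.univ)) (hS : Nonempty S)
    (hφ : ¬ Sentence.Realize S φ) :
    ∃ (σ : Pos → Option Lab × Set (QB B)) (SH : Set B), Good l σ ∧
      Nonempty ((gadget L B hnear).Car σ SH) ∧
      ¬ Sentence.Realize ((gadget L B hnear).Car σ SH) φ := by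
  classical
  let σ : Pos → Option Lab × Set (QB B) := fun p =>
    (l p, {q | ∃ h, (⟨Sum.inr (p, q), h⟩ : (gadget L B hnear).Car (full l) Set.univ) ∈ S})
  let SH : Set B := {b | ∃ h, (⟨Sum.inl b, h⟩ : (gadget L B hnear).Car (full l) Set.univ) ∈ S}
  have hg : Good l σ := by
    refine ⟨fun p => rfl, fun p hp => ?_⟩
    ext q
    simp only [Set.mem_empty_iff_false, iff_false]
    rintro ⟨h, -⟩
    exact h hp
  have hmem : ∀ e : (gadget L B hnear).Car (full l) Set.univ, e ∈ S ↔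
      Sum.elim (fun h => h ∈ SH) (fun x => (gadget L B hnear).sel (σ x.1) x.2) e.1 := by
    rintro ⟨e, he⟩
    rcases e with b | ⟨p, q⟩
    · exact ⟨fun h => ⟨he, h⟩, fun ⟨_, h⟩ => h⟩
    · exact ⟨fun h => ⟨he, h⟩, fun ⟨_, h⟩ => h⟩
  have hr : (emb hnear hg SH).toHom.range = S := by
    ext e
    rw [Hom.mem_range, hmem]
    constructor
    · rintro ⟨x, rfl⟩
      exact x.2
    · intro h
      exact ⟨⟨e.1, h⟩, Subtype.ext rfl⟩
  have e := (emb (L := L) hnear hg SH).equivRange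
  refine ⟨σ, SH, hg, ?_, ?_⟩
  · rw [← hr] at hS
    exact hS.map e.symm
  · intro h
    apply hφ
    have h2 := (StrongHomClass.realize_sentence e φ).mp h
    rw [hr] at h2
    exact h2

end

end Pool.Agent.U540.HC
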