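import Pool.Agent.U540.HC.Asm

/-!
# Project HC: the assembly, crossing argument and pigeonhole
-/

namespace Pool.Agent.U540.HC

open FirstOrder FirstOrder.Language

instance finite_box (r : ℕ) : Finite (Box r) := by
  have : {d : Pos | |d.1| ≤ (r : ℤ) ∧ |d.2| ≤ (r : ℤ)} ⊆
      Set.Icc (-(r : ℤ)) r ×ˢ Set.Icc (-(r : ℤ)) r := by
    rintro ⟨a, b⟩ ⟨h1, h2⟩
    exact ⟨abs_le.mp h1, abs_le.mp h2⟩
  exact ((Set.finite_Icc _ _).prod (Set.finite_Icc _ _)).subset this

/-- crossing of two configurations -/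
def cross {Λ : Type} (cut : ℤ) (l l' : Pos → Λ) : Pos → Λ :=
  fun p => if p.1 < cut then l p else l' p

theorem min_add' (T a b b' : ℕ∞) (h : min T b = min T b') : min T (a + b) = min T (a + b') := by
  rcases lt_or_ge b T with hb | hb
  · rcases lt_or_ge b' T with hb' | hb'
    · rw [min_eq_right hb.le, min_eq_right hb'.le] at h
      rw [h]
    · rw [min_eq_right hb.le, min_eq_left hb'] at h
      exact absurd h hb.ne
  · rcases lt_or_ge b' T with hb' | hb'
    · rw [min_eq_left hb, min_eq_right hb'.le] at h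
      exact absurd h.symm hb'.ne
    · rw [min_eq_left (hb.trans le_add_self), min_eq_left (hb'.trans le_add_self)]

theorem countEq_cross {Λ : Type} (R T : ℕ) (l l' : Pos → Λ)
    (hch : ∀ p : Pos, 0 ≤ p.1 → p.1 < 2 * R + 2 → l p = l' p)
    (hcnt : ∀ r ≤ R, ∀ w : Box r → Λ,
      min (T : ℕ∞) {p : Pos | (R + 1 : ℤ) ≤ p.1 ∧ win r l p = w}.encard =
        min (T : ℕ∞) {p : Pos | (R + 1 : ℤ) ≤ p.1 ∧ win r l' p = w}.encard) :
    CountEq R T l (cross (R + 1) l l') := by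
  intro r hr w
  have hr' : (r : ℤ) ≤ R := by exact_mod_cast hr
  have hl : ∀ p : Pos, p.1 < R + 1 → win r (cross (R + 1) l l') p = win r l p := by
    intro p hp
    funext d
    have hd := abs_le.mp d.2.1
    change (if (p + d.1).1 < R + 1 then l (p + d.1) else l' (p + d.1)) = l (p + d.1)
    split_ifs with h
    · rfl
    · refine (hch _ ?_ ?_).symm <;> simp only [Prod.fst_add] at h ⊢ <;> omega
  have hr2 : ∀ p : Pos, (R + 1 : ℤ) ≤ p.1 → win r (cross (R + 1) l l') p = win r l' p := by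
    intro p hp
    funext d
    have hd := abs_le.mp d.2.1
    change (if (p + d.1).1 < R + 1 then l (p + d.1) else l' (p + d.1)) = l' (p + d.1)
    split_ifs with h
    · refine (hch _ ?_ ?_) <;> simp only [Prod.fst_add] at h ⊢ <;> omega
    · rfl
  have e1 : {p : Pos | win r l p = w} =
      {p : Pos | p.1 < R + 1 ∧ win r l p = w} ∪ {p : Pos | (R + 1 : ℤ) ≤ p.1 ∧ win r l p = w} := by
    ext p
    simp only [Set.mem_ofPred_eq, Set.mem_union]
    rcases lt_or_ge p.1 (R + 1 : ℤ) with h | h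
    · simp [h, not_le.mpr h]
    · simp [h, not_lt.mpr h]
  have e2 : {p : Pos | win r (cross (R + 1) l l') p = w} =
      {p : Pos | p.1 < R + 1 ∧ win r l p = w} ∪ {p : Pos | (R + 1 : ℤ) ≤ p.1 ∧ win r l' p = w} := by
    ext p
    simp only [Set.mem_ofPred_eq, Set.mem_union]
    rcases lt_or_ge p.1 (R + 1 : ℤ) with h | h
    · simp [h, not_le.mpr h, hl p h]
    · simp [h, not_lt.mpr h, hr2 p h]
  have d1 : ∀ X Y : Pos → Prop, Disjoint {p : Pos | p.1 < R + 1 ∧ X p}
      {p : Pos | (R + 1 : ℤ) ≤ p.1 ∧ Y p} := by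
    intro X Y
    rw [Set.disjoint_left]
    rintro p ⟨h, -⟩ ⟨h', -⟩
    exact absurd h' (not_le.mpr h)
  rw [e1, e2, Set.encard_union_eq (d1 _ _), Set.encard_union_eq (d1 _ _)]
  exact min_add' _ _ _ _ (hcnt r hr w)

theorem grid_left (m D : ℕ) (A A₁ A₂ : Set ℕ) (p : Pos) (hp : p.1 < D) :
    grid m D A A₁ p = grid m D A A₂ p := by
  unfold grid
  by_cases h0 : p.1 < 0 <;> simp [hp, h0]

theorem grid_right (m D : ℕ) (A A₁ A₂ : Set ℕ) (p : Pos) (hp : 0 ≤ p.1) :
    grid m D A₁ A p = grid m D A₂ A p := by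
  unfold grid
  simp [not_lt.mpr hp]

theorem grid_inside (m D : ℕ) (A A' : Set ℕ) (p : Pos) (hp : grid m D A A' p ≠ none) :
    (-(2 ^ m : ℤ) ≤ p.1 ∧ p.1 < D + 2 ^ m) ∧ 0 ≤ p.2 ∧ p.2 < m := by
  by_contra h
  exact hp (by unfold grid; rw [if_neg h])

end Pool.Agent.U540.HC
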