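import Pool.Agent.U540.HC.Asm2

/-!
# Project HC: the main theorem from the packages
-/

namespace Pool.Agent.U540.HC

open FirstOrder FirstOrder.Language

/-- finite data of a configuration: channel, numbers of windows on the right, hub -/
abbrev Data (Λ B : Type) (R T m : ℕ) : Type :=
  ((Fin (2 * R + 2) → Fin m → Λ) × (∀ r : Fin (R + 1), (Box r → Λ) → Fin (T + 1))) × Set B

theorem finite_data (Λ B : Type) [Finite Λ] [Finite B] (R T m : ℕ) :
    Finite (Data Λ B R T m) := inferInstance

theorem card_data (Λ B : Type) [Finite Λ] [Finite B] (R T : ℕ) :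
    ∃ K : ℕ, ∀ m : ℕ, Nat.card (Data Λ B R T m) = (Nat.card Λ ^ (2 * R + 2)) ^ m * K := by
  refine ⟨Nat.card (∀ r : Fin (R + 1), (Box r → Λ) → Fin (T + 1)) * Nat.card (Set B), ?_⟩
  intro m
  rw [Nat.card_prod, Nat.card_prod, mul_assoc]
  congr 1
  rw [Nat.card_fun, Nat.card_fun, Nat.card_fin, Nat.card_fin, ← pow_mul, ← pow_mul, mul_comm m]

theorem toNat_min_lt (T : ℕ) (a : ℕ∞) : (min (T : ℕ∞) a).toNat < T + 1 := by
  have h : min (T : ℕ∞) a ≤ T := min_le_left _ _
  have := ENat.toNat_le_toNat h (ENat.natCast_ne_top T)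
  simp only [ENat.toNat_natCast] at this
  omega

theorem toNat_min_inj (T : ℕ) (a b : ℕ∞) (h : (min (T : ℕ∞) a).toNat = (min (T : ℕ∞) b).toNat) :
    min (T : ℕ∞) a = min (T : ℕ∞) b := by
  have ha : min (T : ℕ∞) a ≠ ⊤ := ne_top_of_le_ne_top (ENat.natCast_ne_top T) (min_le_left _ _)
  have hb : min (T : ℕ∞) b ≠ ⊤ := ne_top_of_le_ne_top (ENat.natCast_ne_top T) (min_le_left _ _)
  rw [← ENat.natCast_toNat ha, ← ENat.natCast_toNat hb, h]

theorem finite_car {L : FirstOrder.Language.{0, 0}} {B : Type} [Finite B] [L.Structure B]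
    (hnear : ∀ (c : Jn) (u : Sol c → B) o q, iota c u = Sum.inr (o, q) → |o.1| ≤ 1 ∧ |o.2| ≤ 1)
    (m D : ℕ) (A A' : Set ℕ) :
    Finite ((gadget L B hnear).Car (full (grid m D A A')) Set.univ) := by
  have hfin : (Set.range (Sum.inl : B → B ⊕ (Pos × QB B)) ∪
      (Sum.inr '' ((Set.Icc (-(2 ^ m : ℤ)) (D + 2 ^ m) ×ˢ Set.Icc (0 : ℤ) m) ×ˢ
        (Set.univ : Set (QB B))))).Finite := by
    refine (Set.finite_range _).union (Set.Finite.image _ ?_)
    exact ((Set.finite_Icc _ _).prod (Set.finite_Icc _ _)).prod Set.finite_univ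
  refine hfin.subset ?_
  rintro (b | ⟨p, q⟩) he
  · exact Or.inl ⟨b, rfl⟩
  · have h := grid_inside m D A A' p he
    exact Or.inr ⟨(p, q), ⟨⟨⟨h.1.1, h.1.2.le⟩, ⟨h.2.1, h.2.2.le⟩⟩, trivial⟩, rfl⟩

theorem goal_of (hH : HanfStm) (hG : GridStm) (hGa : GadgetStm) : Goal := by
  classical
  intro L _ B _ _ _ φ hφ hm
  obtain ⟨hnear0, hsat, hunsat⟩ := hGa
  obtain ⟨hwf, hgs, hgu⟩ := hG
  have hnear := hnear0 B
  -- the sentence relative to nonempty structures
  let φ' : L.Sentence := (∃' (⊤ : L.BoundedFormula Empty 1)).imp φ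
  have hφ' : ∀ (M : Type) [L.Structure M], Sentence.Realize M φ' ↔
      (Nonempty M → Sentence.Realize M φ) := by
    intro M _
    change (BoundedFormula.Realize ((∃' (⊤ : L.BoundedFormula Empty 1)).imp φ) default default) ↔ _
    rw [BoundedFormula.realize_imp, BoundedFormula.realize_ex]
    simp only [BoundedFormula.realize_top, exists_const_iff, and_true]
    rfl
  obtain ⟨R, T, hRT⟩ := hH L (Option Lab × Set (QB B)) B (QB B) (gadget L B hnear) φ'
  obtain ⟨K, hK⟩ := card_data (Option Lab × Set (QB B)) B R T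
  obtain ⟨m, hm0, hlt⟩ := growth (Nat.card (Option Lab × Set (QB B)) ^ (2 * R + 2)) K
  rw [← hK m] at hlt
  -- the sets
  let At : Set (Fin (2 ^ m)) → Set ℕ := fun A => Fin.val '' A
  let l : Set (Fin (2 ^ m)) → Set (Fin (2 ^ m)) → Pos → Option Lab :=
    fun A A' => grid m (2 * R + 2) (At A) (At A')ᶜ
  have hne0 : ∀ A A', Nonempty ((gadget L B hnear).Car (full (l A A')) Set.univ) := by
    intro A A'
    exact ⟨⟨Sum.inl (Classical.arbitrary B), trivial⟩⟩
  have key : ∀ A : Set (Fin (2 ^ m)), ∃ (σ : Pos → Option Lab × Set (QB B)) (SH : Set B),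
      Good (l A A) σ ∧ Nonempty ((gadget L B hnear).Car σ SH) ∧
        ¬ Sentence.Realize ((gadget L B hnear).Car σ SH) φ := by
    intro A
    have h1 : ¬ Sat (l A A) := hgu _ _ _ _ hm0 (fun t _ => em _)
    have h2 : ¬ Nonempty ((gadget L B hnear).Car (full (l A A)) Set.univ →[L] B) :=
      fun h => h1 (hunsat L B hnear _ (hwf _ _ _ _) hm h)
    have := finite_car (L := L) hnear m (2 * R + 2) (At A) (At A)ᶜ
    have := hne0 A A
    rw [hφ ((gadget L B hnear).Car (full (l A A)) Set.univ)] at h2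
    push Not at h2
    obtain ⟨S, hS, hS'⟩ := h2
    exact exists_conf hnear φ S hS hS'
  choose σ SH hgood hne hnr using key
  let F : Set (Fin (2 ^ m)) → Data (Option Lab × Set (QB B)) B R T m := fun A =>
    ((fun j i => σ A (((j : ℕ) : ℤ), ((i : ℕ) : ℤ)),
      fun r w => ⟨(min (T : ℕ∞) {p : Pos | (R + 1 : ℤ) ≤ p.1 ∧ win r (σ A) p = w}.encard).toNat,
        toNat_min_lt T _⟩), SH A)
  have hFn : ¬ Function.Injective F := by
    intro hF
    have := finite_data (Option Lab × Set (QB B)) B R T m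
    have h1 := Nat.card_le_card_of_injective F hF
    have h2 : Nat.card (Set (Fin (2 ^ m))) = 2 ^ (2 ^ m) := by
      rw [Nat.card_eq_fintype_card]
      simp
    omega
  -- the crossing
  have hcross : ∀ A A' : Set (Fin (2 ^ m)), F A = F A' → ∀ t, t ∈ A' → t ∉ A → False := by
    intro A A' hF t ht ht'
    simp only [F, Prod.mk.injEq] at hF
    obtain ⟨⟨hch, hcn⟩, hSH⟩ := hF
    have hch' : ∀ p : Pos, 0 ≤ p.1 → p.1 < 2 * R + 2 → σ A p = σ A' p := by
      rintro ⟨a, b⟩ h1 h2
      simp only at h1 h2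
      by_cases hb : 0 ≤ b ∧ b < m
      · have h3 := congrFun (congrFun hch ⟨a.toNat, by omega⟩) ⟨b.toNat, by omega⟩
        simp only [Int.toNat_of_nonneg h1, Int.toNat_of_nonneg hb.1] at h3
        exact h3
      · have hnone : ∀ A1, l A1 A1 (a, b) = none := by
          intro A1
          by_contra h
          have := grid_inside m (2 * R + 2) _ _ _ h
          exact hb this.2
        have h4 : ∀ A1, σ A1 (a, b) = (none, ∅) := by
          intro A1
          apply Prod.ext
          · rw [(hgood A1).fst, hnone]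
          · exact (hgood A1).out _ (hnone A1)
        rw [h4, h4]
    have hcount := countEq_cross R T (σ A) (σ A') hch' (by
      intro r hr w
      have h3 := congrFun (congrFun hcn ⟨r, by omega⟩) w
      simp only [Fin.mk.injEq] at h3
      exact toNat_min_inj T _ _ h3)
    have hD : ((2 * R + 2 : ℕ) : ℤ) = 2 * R + 2 := by push_cast; ring
    have hgc : Good (l A A') (cross (R + 1) (σ A) (σ A')) := by
      constructor
      · intro p
        unfold cross
        split_ifs with h
        · rw [(hgood A).fst]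
          exact grid_left _ _ _ _ _ _ (by rw [hD]; omega)
        · rw [(hgood A').fst]
          exact grid_right _ _ _ _ _ _ (by omega)
      · intro p hp
        unfold cross
        split_ifs with h
        · refine (hgood A).out _ ?_
          rw [← hp]
          exact grid_left _ _ _ _ _ _ (by rw [hD]; omega)
        · refine (hgood A').out _ ?_
          rw [← hp]
          exact grid_right _ _ _ _ _ _ (by omega)
    have h5 := (hRT _ _ (SH A) hcount).not
    have h6 : ¬ Sentence.Realize ((gadget L B hnear).Car (σ A) (SH A)) φ' := by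
      rw [hφ']
      intro h
      exact hnr A (h (hne A))
    have h7 := h5.mp h6
    rw [hφ'] at h7
    push Not at h7
    obtain ⟨hne', hn'⟩ := h7
    apply hn'
    refine realize_of_her hnear hgc (SH A) φ ?_ hne'
    have h8 : Sat (l A A') := by
      refine hgs m _ _ _ (t : ℕ) t.2 ?_ ?_
      · rintro ⟨t', h9, h10⟩
        rw [Fin.val_injective h10] at h9
        exact ht' h9
      · intro h9
        exact h9 ⟨t, ht, rfl⟩
    have h9 := hsat L B hnear _ h8
    have := finite_car (L := L) hnear m (2 * R + 2) (At A) (At A')ᶜ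
    have := hne0 A A'
    rw [hφ ((gadget L B hnear).Car (full (l A A')) Set.univ)] at h9
    exact h9
  apply hFn
  intro A A' hF
  ext t
  constructor
  · intro h
    by_contra h'
    exact hcross A' A hF.symm t h h'
  · intro h
    by_contra h'
    exact hcross A A' hF t h h'

end Pool.Agent.U540.HC
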