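import Mathlib

/-!
# Project HC (MP_46fb1e_lc): finite-domain CSPs in hereditary first-order logic

Definitions and the statements of the packages.
-/

namespace Pool.Agent.U540.HC

open FirstOrder FirstOrder.Language

/-! ## Windows of configurations on the grid -/

/-- positions of the grid -/
abbrev Pos := ℤ × ℤ

/-- offsets of sup norm at most `r` -/
abbrev Box (r : ℕ) := {d : Pos // |d.1| ≤ (r : ℤ) ∧ |d.2| ≤ (r : ℤ)}

/-- the window of radius `r` of the configuration `l` around `p` -/
def win {Λ : Type} (r : ℕ) (l : Pos → Λ) (p : Pos) : Box r → Λ := fun d => l (p + d.1)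

/-- the numbers of occurrences of all windows of radius at most `R` agree up to threshold `T` -/
def CountEq {Λ : Type} (R T : ℕ) (l l' : Pos → Λ) : Prop :=
  ∀ r ≤ R, ∀ w : Box r → Λ,
    min (T : ℕ∞) {p | win r l p = w}.encard = min (T : ℕ∞) {p | win r l' p = w}.encard

/-! ## Structures given by a local rule on a configuration -/

/-- translation of an element: hub elements stay fixed -/
def shift {H Q : Type} (p : Pos) : H ⊕ (Pos × Q) → H ⊕ (Pos × Q)
  | Sum.inl h => Sum.inl h
  | Sum.inr x => Sum.inr (p + x.1, x.2)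

/-- A local system: the cell at `p` with label `a` generates the tuples `shift p ∘ x`, `rule R a x`,
and the cell has the elements `q` with `sel a q`. -/
structure Sys (L : FirstOrder.Language.{0, 0}) (Λ H Q : Type) where
  rule : ∀ {n : ℕ}, L.Relations n → Λ → (Fin n → H ⊕ (Pos × Q)) → Prop
  near : ∀ {n : ℕ} (R : L.Relations n) (a : Λ) (x : Fin n → H ⊕ (Pos × Q)), rule R a x →
    ∀ i o q, x i = Sum.inr (o, q) → |o.1| ≤ 1 ∧ |o.2| ≤ 1
  sel : Λ → Q → Prop

/-- the domain of the structure given by a configuration -/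
def Sys.Car {L : FirstOrder.Language.{0, 0}} {Λ H Q : Type} (S : Sys L Λ H Q) (l : Pos → Λ) (SH : Set H) :
    Type :=
  {e : H ⊕ (Pos × Q) // Sum.elim (fun h => h ∈ SH) (fun x => S.sel (l x.1) x.2) e}

instance Sys.struc {L : FirstOrder.Language.{0, 0}} [L.IsRelational] {Λ H Q : Type} (S : Sys L Λ H Q)
    (l : Pos → Λ) (SH : Set H) : L.Structure (S.Car l SH) where
  funMap := fun f => isEmptyElim f
  RelMap := fun R x => ∃ (p : Pos) (y : _ → H ⊕ (Pos × Q)), S.rule R (l p) y ∧
    ∀ i, (x i).1 = shift p (y i)

/-- Package HANF. -/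
def HanfStm : Prop :=
  ∀ (L : FirstOrder.Language.{0, 0}) [L.IsRelational] (Λ H Q : Type) [Finite Λ] (S : Sys L Λ H Q)
    (φ : L.Sentence), ∃ R T : ℕ, ∀ (l l' : Pos → Λ) (SH : Set H), CountEq R T l l' →
      (Sentence.Realize (S.Car l SH) φ ↔ Sentence.Realize (S.Car l' SH) φ)

/-! ## The grid instances of 3-SAT -/

/-- the Boolean variables of a cell: `x` the transmitted bit, `s` the state of the clause of the
column, `d`, `e` dummies -/
inductive Kd
  | x | s | d | e
  deriving DecidableEq, Fintype

/-- labels of cells -/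
structure Lab where
  /-- the column to the right is inside -/
  right : Bool
  /-- `none`: the column carries no clause; `some a`: the clause of the column has bit `a` here -/
  bit : Option Bool
  /-- first row -/
  st : Bool
  /-- last row -/
  en : Bool
  deriving DecidableEq, Fintype

/-- names of the 3-clauses -/
inductive Jn
  | hc (a b : Bool) | vc (a : Bool) | sc (a b : Bool) | ec (a b : Bool)
  deriving DecidableEq, Fintype

/-- the three literals of a clause: offset, variable, forbidden value -/
def cd : Jn → Fin 3 → Pos × Kd × Bool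
  | Jn.hc a b => ![((0, 0), Kd.x, a), ((1, 0), Kd.x, !a), ((0, 0), Kd.d, b)]
  | Jn.vc a => ![((0, 0), Kd.s, true), ((0, -1), Kd.s, false), ((0, 0), Kd.x, a)]
  | Jn.sc a b => ![((0, 0), Kd.s, true), ((0, 0), Kd.x, a), ((0, 0), Kd.d, b)]
  | Jn.ec a b => ![((0, 0), Kd.s, false), ((0, 0), Kd.d, a), ((0, 0), Kd.e, b)]

/-- the clauses of a cell, by its label (`none`: outside) -/
def has : Option Lab → Jn → Prop
  | none, _ => False
  | some t, Jn.hc _ _ => t.right = true
  | some t, Jn.vc a => t.bit = some a ∧ t.st = false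
  | some t, Jn.sc a _ => t.bit = some a ∧ t.st = true
  | some t, Jn.ec _ _ => t.bit ≠ none ∧ t.en = true

/-- the instance given by a configuration is satisfiable -/
def Sat (l : Pos → Option Lab) : Prop :=
  ∃ s : Pos → Kd → Bool, ∀ p c, has (l p) c →
    ∃ k, s (p + (cd c k).1) (cd c k).2.1 ≠ (cd c k).2.2

/-- all clauses use variables of inside cells only -/
def WF (l : Pos → Option Lab) : Prop :=
  ∀ p c, has (l p) c → ∀ k, l (p + (cd c k).1) ≠ none

open Classical in
/-- The grid instance: rows `0 ≤ i < m`, columns `-2 ^ m ≤ j < D + 2 ^ m`. Column `-1 - t` carries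
the clause (the transmitted string is not the string of `t`) if `t ∈ A`, and column `D + t` if
`t ∈ A'`. -/
noncomputable def grid (m D : ℕ) (A A' : Set ℕ) (p : Pos) : Option Lab :=
  if (-(2 ^ m : ℤ) ≤ p.1 ∧ p.1 < D + 2 ^ m) ∧ 0 ≤ p.2 ∧ p.2 < m then
    some
      { right := decide (p.1 + 1 < D + 2 ^ m)
        bit :=
          if p.1 < 0 then
            (if (-1 - p.1).toNat ∈ A then some ((-1 - p.1).toNat.testBit p.2.toNat) else none)
          else if p.1 < D then none
          else (if (p.1 - D).toNat ∈ A' then some ((p.1 - D).toNat.testBit p.2.toNat) else none)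
        st := decide (p.2 = 0)
        en := decide (p.2 = m - 1) }
  else none

/-- Package GRID. -/
def GridStm : Prop :=
  (∀ (m D : ℕ) (A A' : Set ℕ), WF (grid m D A A')) ∧
  (∀ (m D : ℕ) (A A' : Set ℕ) (t : ℕ), t < 2 ^ m → t ∉ A → t ∉ A' → Sat (grid m D A A')) ∧
  (∀ (m D : ℕ) (A A' : Set ℕ), 0 < m → (∀ t < 2 ^ m, t ∈ A ∨ t ∈ A') → ¬ Sat (grid m D A A'))

/-! ## Polymorphisms and the gadget -/

/-- `f` is a polymorphism of `B` of arity `n` -/
def IsPol (L : FirstOrder.Language.{0, 0}) (B : Type) [L.Structure B] {n : ℕ} (f : (Fin n → B) → B) : Prop :=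
  ∀ {k : ℕ} (R : L.Relations k) (x : Fin k → Fin n → B),
    (∀ i, Structure.RelMap R (fun j => x j i)) → Structure.RelMap R (fun j => f (x j))

/-- There is a minion homomorphism from the polymorphisms of `B` (of arity at least one) to the
projections: a map `ξ` that assigns to every polymorphism `f` of arity `n` one of its `n`
coordinates, such that if `g` is the minor of `f` by `σ`, `g (y) = f (y ∘ σ)`, then
`ξ g = σ (ξ f)`. -/
def MinionHomToProj (L : FirstOrder.Language.{0, 0}) (B : Type) [L.Structure B] : Prop :=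
  ∃ ξ : ∀ n : ℕ, {f : (Fin (n + 1) → B) → B // IsPol L B f} → Fin (n + 1),
    ∀ (n m : ℕ) (σ : Fin (n + 1) → Fin (m + 1)) (f : {f : (Fin (n + 1) → B) → B // IsPol L B f})
      (g : {f : (Fin (m + 1) → B) → B // IsPol L B f}),
      (∀ y, g.1 y = f.1 (y ∘ σ)) → ξ m g = σ (ξ n f)

/-- the satisfying assignments of a clause -/
abbrev Sol (c : Jn) := {t : Fin 3 → Bool // ∃ k, t k ≠ (cd c k).2.2}

/-- the elements of a cell of the gadget structure: functions on the domain of a variable and
functions on the set of satisfying assignments of a clause -/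
abbrev QB (B : Type) := (Kd × (Bool → B)) ⊕ (Σ c : Jn, (Sol c → B))

open Classical in
/-- the element of the gadget structure named by a function on the set of satisfying assignments of
the clause `c` -/
noncomputable def iota {B : Type} (c : Jn) (u : Sol c → B) : B ⊕ (Pos × QB B) :=
  if h : ∃ b, ∀ t, u t = b then Sum.inl h.choose
  else if h : ∃ kg : Fin 3 × (Bool → B), ∀ t, u t = kg.2 (t.1 kg.1) then
    Sum.inr ((cd c h.choose.1).1, Sum.inl ((cd c h.choose.1).2.1, h.choose.2))
  else Sum.inr (0, Sum.inr ⟨c, u⟩)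

/-- The gadget system over labels `Option Lab × Set (QB B)`; the second component of the label is the
set of the elements of the cell that are present. -/
noncomputable def gadget (L : FirstOrder.Language.{0, 0}) (B : Type) [L.Structure B]
    (hnear : ∀ (c : Jn) (u : Sol c → B) o q, iota c u = Sum.inr (o, q) → |o.1| ≤ 1 ∧ |o.2| ≤ 1) :
    Sys L (Option Lab × Set (QB B)) B (QB B) where
  rule := fun R a x => ∃ c, has a.1 c ∧ ∃ y : _ → (Sol c → B),
    (∀ t, Structure.RelMap R (fun i => y i t)) ∧ x = fun i => iota c (y i)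
  near := by
    rintro n R a x ⟨c, -, y, -, rfl⟩ i o q h
    exact hnear c (y i) o q h
  sel := fun a q => q ∈ a.2

/-- the full configuration: all elements of all inside cells are present -/
def full {B : Type} (l : Pos → Option Lab) : Pos → Option Lab × Set (QB B) :=
  fun p => (l p, {_q | l p ≠ none})

/-- Package GADGET. -/
def GadgetStm : Prop :=
  (∀ (B : Type) (c : Jn) (u : Sol c → B) o q, iota c u = Sum.inr (o, q) → |o.1| ≤ 1 ∧ |o.2| ≤ 1) ∧
  (∀ (L : FirstOrder.Language.{0, 0}) [L.IsRelational] (B : Type) [Nonempty B] [L.Structure B] (hnear)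
    (l : Pos → Option Lab), Sat l →
      Nonempty ((gadget L B hnear).Car (full l) Set.univ →[L] B)) ∧
  (∀ (L : FirstOrder.Language.{0, 0}) [L.IsRelational] (B : Type) [Nonempty B] [L.Structure B] (hnear)
    (l : Pos → Option Lab), WF l → MinionHomToProj L B →
      Nonempty ((gadget L B hnear).Car (full l) Set.univ →[L] B) → Sat l)

/-! ## The goal -/

/-- `φ` defines `CSP(B)` in hereditary first-order logic -/
def HerDefines (L : FirstOrder.Language.{0, 0}) [L.IsRelational] (B : Type) [L.Structure B]
    (φ : L.Sentence) : Prop :=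
  ∀ (A : Type) [Finite A] [Nonempty A] [L.Structure A],
    Nonempty (A →[L] B) ↔ ∀ S : L.Substructure A, Nonempty S → Sentence.Realize S φ

def Goal : Prop :=
  ∀ (L : FirstOrder.Language.{0, 0}) [L.IsRelational] (B : Type) [Finite B] [Nonempty B] [L.Structure B]
    (φ : L.Sentence), HerDefines L B φ → ¬ MinionHomToProj L B

end Pool.Agent.U540.HC
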